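import Pool.Agent.Y554.SN.Stm
import Pool.Agent.H389R2.NS.E4

/-! Sharp two-layer arm probabilities of a general family of arm events, project SN of helper554
(adapted from `Pool/Agent/Y554/DP/QX.lean`). -/

set_option autoImplicit false

namespace Pool.Agent.Y67.SN

open H974 H12S H985T H389NS Finset Pool.Agent.Y554.DP Pool.Agent.Y554.SN

theorem EX_loc {X : ℕ → ℕ → Set Edg → Prop} {α : ℝ} (hX : ArmG X α) {a N : ℕ} {T : Finset Edg}
    (hT : An a N ⊆ T) (F : Finset Edg) :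
    X a N (↑F : Set Edg) ↔ X a N (↑(F ∩ T) : Set Edg) := by
  apply hX.congr
  rw [Finset.coe_inter, Set.inter_assoc, Set.inter_eq_right.2 (Finset.coe_subset.2 hT)]

theorem EX_local {X : ℕ → ℕ → Set Edg → Prop} {α : ℝ} (hX : ArmG X α) {ρ : Edg → ℝ}
    {S : Finset Edg} {a N : ℕ} {z : ℝ} (hS : An a N ⊆ S) (hz : ∀ e ∈ An a N, ρ e = z) :
    P2 ρ S (fun F => X a N ↑F) (fun F => X a N ↑F) = qX X z a N := by
  rw [P2_local hS (fun F _ => EX_loc hX (Finset.Subset.refl _) F)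
    (fun F _ => EX_loc hX (Finset.Subset.refl _) F)]
  exact E4_rho hz _ _

theorem EX_mono (X : ℕ → ℕ → Set Edg → Prop) {z y : ℝ} (h0 : 0 ≤ z) (h : z ≤ y) (a N : ℕ) :
    qX X z a N ≤ qX X y a N :=
  P2_mono_param (fun _ _ => h0) (fun _ _ => h) _

/-- one edge: independence -/
theorem EX_edge {X : ℕ → ℕ → Set Edg → Prop} {α : ℝ} (hX : ArmG X α) {k' N' a0 b0 R : ℕ} (hk : 64 ≤ k') (ha0 : a0 = 4 * k') (hb0 : 4 * b0 ≤ N')
    (hR : a0 ≤ R) (hR2 : 2 * R ≤ b0) {e : Edg} (he : e ∈ An R (2 * R)) {z : ℝ} (h0 : 0 ≤ z)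
    (h1 : z ≤ 1) :
    P2 (E4r a0 b0 z) (An k' N')
      (fun F => ¬ (X k' N' (↑(insert e F) : Set Edg) ↔ X k' N' (↑(F.erase e) : Set Edg)))
      (fun F => ¬ (X k' N' (↑(insert e F) : Set Edg) ↔ X k' N' (↑(F.erase e) : Set Edg))) ≤
    P2 (E4r a0 b0 z) (An k' N') (fun F => A4e (R / 8) e ↑F ∨ A4d (R / 8) e F)
      (fun F => A4e (R / 8) e ↑F ∨ A4d (R / 8) e F) *
    (P2 (E4r a0 b0 z) (An k' N') (fun F => X k' (R / 2) ↑F) (fun F => X k' (R / 2) ↑F) *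
    P2 (E4r a0 b0 z) (An k' N') (fun F => X (4 * R) N' ↑F) (fun F => X (4 * R) N' ↑F)) := by
  have hρ := E4r_ok (a0 := a0) (b0 := b0) h0 h1 (An k' N')
  rw [INDI_memAn] at he
  have hd1 : Disjoint (ebx e (R / 8 + 3)) (boxE (R / 2)) := E4_ebx_disj he.2 (by omega)
  have hd2 : Disjoint (ebx e (R / 8 + 2)) (boxE (R / 2)) := E4_ebx_disj he.2 (by omega)
  have hs1 : ebx e (R / 8 + 3) ⊆ boxE (4 * R) := E4_ebx_sub he.1 (by omega)
  have hs2 : ebx e (R / 8 + 2) ⊆ boxE (4 * R) := E4_ebx_sub he.1 (by omega)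
  have hflip : ∀ F : Finset Edg, F ⊆ An k' N' →
      (¬ (X k' N' (↑(insert e F) : Set Edg) ↔ X k' N' (↑(F.erase e) : Set Edg))) →
      (A4e (R / 8) e (↑F : Set Edg) ∨ A4d (R / 8) e F) ∧
        (X k' (R / 2) (↑F : Set Edg) ∧ X (4 * R) N' (↑F : Set Edg)) := by
    intro F _ h
    exact hX.flip (by omega) (by omega) (by omega) (by omega) hd1 hs1 h
  refine (D1_mono hρ hflip hflip).trans (le_of_eq ?_)
  have hS1 : ebx e (R / 8 + 2) ⊆ An k' N' := by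
    intro f hf
    rw [INDI_memAn]
    refine ⟨E4_boxE (by omega) (hs2 hf), fun h => ?_⟩
    exact (Finset.disjoint_left.1 hd2) hf (E4_boxE (by omega) h)
  have hT1 : An k' (R / 2) ⊆ An k' N' \ ebx e (R / 8 + 2) := by
    intro f hf
    rw [Finset.mem_sdiff]
    refine ⟨E4_An_sub le_rfl (by omega) hf, fun h => ?_⟩
    exact (Finset.disjoint_left.1 hd2) h (INDI_memAn.1 hf).1
  have hT2 : An (4 * R) N' ⊆ An k' N' \ ebx e (R / 8 + 2) := by
    intro f hf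
    rw [Finset.mem_sdiff]
    refine ⟨E4_An_sub (by omega) le_rfl hf, fun h => ?_⟩
    exact (INDI_memAn.1 hf).2 (hs2 h)
  have hB : ∀ F, F ⊆ An k' N' →
      ((X k' (R / 2) (↑F : Set Edg) ∧ X (4 * R) N' (↑F : Set Edg)) ↔
      (X k' (R / 2) (↑(F ∩ (An k' N' \ ebx e (R / 8 + 2))) : Set Edg) ∧
        X (4 * R) N' (↑(F ∩ (An k' N' \ ebx e (R / 8 + 2))) : Set Edg))) := by
    intro F _
    exact and_congr (EX_loc hX hT1 F) (EX_loc hX hT2 F)
  have hA : ∀ F, F ⊆ An k' N' →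
      ((A4e (R / 8) e (↑F : Set Edg) ∨ A4d (R / 8) e F) ↔
      (A4e (R / 8) e (↑(F ∩ ebx e (R / 8 + 2)) : Set Edg) ∨
        A4d (R / 8) e (F ∩ ebx e (R / 8 + 2)))) := by
    intro F _
    exact E4_four_local (Finset.Subset.refl _) F
  rw [P2_indep (ρ := E4r a0 b0 z) (U := An k' N') (S := ebx e (R / 8 + 2))
    (T := An k' N' \ ebx e (R / 8 + 2))
    (A := fun F => A4e (R / 8) e (↑F : Set Edg) ∨ A4d (R / 8) e F)
    (A' := fun F => A4e (R / 8) e (↑F : Set Edg) ∨ A4d (R / 8) e F)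
    (B := fun F => X k' (R / 2) (↑F : Set Edg) ∧ X (4 * R) N' (↑F : Set Edg))
    (B' := fun F => X k' (R / 2) (↑F : Set Edg) ∧ X (4 * R) N' (↑F : Set Edg))
    hS1 Finset.sdiff_subset Finset.disjoint_sdiff hA hA hB hB]
  congr 1
  refine P2_indep (ρ := E4r a0 b0 z) (U := An k' N') (S := An k' (R / 2)) (T := An (4 * R) N')
    (A := fun F => X k' (R / 2) (↑F : Set Edg)) (A' := fun F => X k' (R / 2) (↑F : Set Edg))
    (B := fun F => X (4 * R) N' (↑F : Set Edg)) (B' := fun F => X (4 * R) N' (↑F : Set Edg))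
    (E4_An_sub le_rfl (by omega)) (E4_An_sub (by omega) le_rfl) ?_
    (fun F _ => EX_loc hX (Finset.Subset.refl _) F) (fun F _ => EX_loc hX (Finset.Subset.refl _) F)
    (fun F _ => EX_loc hX (Finset.Subset.refl _) F) (fun F _ => EX_loc hX (Finset.Subset.refl _) F)
  rw [Finset.disjoint_left]
  intro f hf hf'
  exact (INDI_memAn.1 hf').2 (E4_boxE (by omega) (INDI_memAn.1 hf).1)

/-- the inner two-arm factor -/
theorem EX_inner {X : ℕ → ℕ → Set Edg → Prop} {α : ℝ} (hX : ArmG X α) {k k' N' a0 b0 R Rm : ℕ} (hk : 64 ≤ k') (hkk : k ≤ k') (ha0 : a0 = 4 * k')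
    (hb0 : 4 * b0 ≤ N') (hNR : N' ≤ Rm) (hR : a0 ≤ R) (hR2 : 2 * R ≤ b0) {y M : ℝ} (hM : 1 ≤ M)
    (hy1 : y ≤ 1)
    (H : ∀ k' N' : ℕ, k ≤ k' → k' ≤ N' → N' ≤ Rm → qX X y k' N' ≤ M * ((k':ℝ) / N') ^ (2 * α))
    {z : ℝ} (h0 : 0 ≤ z) (h1 : z ≤ y) :
    P2 (E4r a0 b0 z) (An k' N') (fun F => X k' (R / 2) ↑F) (fun F => X k' (R / 2) ↑F) ≤
      M * (16 * (k':ℝ) / R) ^ (2 * α) := by
  have hρ := E4r_ok (a0 := a0) (b0 := b0) h0 (h1.trans hy1) (An k' N')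
  have hRp : (0:ℝ) < R := by exact_mod_cast (by omega : 0 < R)
  by_cases hc : a0 ≤ R / 2
  · have hm : ∀ F : Finset Edg, F ⊆ An k' N' → X k' (R / 2) (↑F : Set Edg) →
        X a0 (R / 2) (↑F : Set Edg) := fun F _ h => hX.inner (by omega) hc h
    refine (D1_mono hρ hm hm).trans ?_
    rw [EX_local hX (z := z) (E4_An_sub (by omega) (by omega)) ?_]
    · refine (EX_mono X h0 h1 _ _).trans ((H a0 (R / 2) (by omega) hc (by omega)).trans ?_)
      refine mul_le_mul_of_nonneg_left ?_ (by linarith)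
      refine Real.rpow_le_rpow (by positivity) ?_ (by linarith [hX.pos])
      have h2 : 1 ≤ R / 2 := by omega
      have h3 : (1:ℝ) ≤ ((R / 2 : ℕ) : ℝ) := by exact_mod_cast h2
      rw [div_le_div_iff₀ (by linarith) hRp]
      have h4 : R ≤ 4 * (R / 2) := by omega
      have h5 : (R:ℝ) ≤ 4 * ((R / 2 : ℕ) : ℝ) := by exact_mod_cast h4
      have h6 : (a0:ℝ) = 4 * k' := by rw [ha0]; push_cast; ring
      rw [h6]
      nlinarith [Nat.cast_nonneg (α := ℝ) k']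
    · intro e he
      unfold E4r
      rw [if_pos (E4_An_sub le_rfl (by omega) he)]
  · refine (E4_le_one hρ _ _).trans ?_
    have h2 : (1:ℝ) ≤ 16 * (k':ℝ) / R := by
      rw [le_div_iff₀ hRp, one_mul]
      have h3 : R ≤ 16 * k' := by omega
      exact_mod_cast h3
    have h3 : (1:ℝ) ≤ (16 * (k':ℝ) / R) ^ (2 * α) := Real.one_le_rpow h2 (by linarith [hX.pos])
    nlinarith

/-- the outer two-arm factor -/
theorem EX_outer {X : ℕ → ℕ → Set Edg → Prop} {α : ℝ} (hX : ArmG X α) {k k' N' a0 b0 R Rm : ℕ} (hk : 64 ≤ k') (hkk : k ≤ k') (ha0 : a0 = 4 * k')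
    (hb0 : 4 * b0 ≤ N') (hb1 : N' < 8 * b0) (hNR : N' ≤ Rm) (hR : a0 ≤ R) (hR2 : 2 * R ≤ b0)
    {y M : ℝ} (hM : 1 ≤ M) (hy1 : y ≤ 1)
    (H : ∀ k' N' : ℕ, k ≤ k' → k' ≤ N' → N' ≤ Rm → qX X y k' N' ≤ M * ((k':ℝ) / N') ^ (2 * α))
    {z : ℝ} (h0 : 0 ≤ z) (h1 : z ≤ y) :
    P2 (E4r a0 b0 z) (An k' N') (fun F => X (4 * R) N' ↑F) (fun F => X (4 * R) N' ↑F) ≤
      M * (32 * (R:ℝ) / N') ^ (2 * α) := by
  have hρ := E4r_ok (a0 := a0) (b0 := b0) h0 (h1.trans hy1) (An k' N')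
  have hNp : (0:ℝ) < N' := by exact_mod_cast (by omega : 0 < N')
  have hbp : (0:ℝ) < b0 := by exact_mod_cast (by omega : 0 < b0)
  by_cases hc : 4 * R ≤ b0
  · have hm : ∀ F : Finset Edg, F ⊆ An k' N' → X (4 * R) N' (↑F : Set Edg) →
        X (4 * R) b0 (↑F : Set Edg) := fun F _ h => hX.outer hc (by omega) h
    refine (D1_mono hρ hm hm).trans ?_
    rw [EX_local hX (z := z) (E4_An_sub (by omega) (by omega)) ?_]
    · refine (EX_mono X h0 h1 _ _).trans ((H (4 * R) b0 (by omega) hc (by omega)).trans ?_)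
      refine mul_le_mul_of_nonneg_left ?_ (by linarith)
      refine Real.rpow_le_rpow (by positivity) ?_ (by linarith [hX.pos])
      rw [div_le_div_iff₀ hbp hNp]
      have h5 : (N':ℝ) ≤ 8 * b0 := by exact_mod_cast hb1.le
      push_cast
      nlinarith [Nat.cast_nonneg (α := ℝ) R]
    · intro e he
      unfold E4r
      rw [if_pos (E4_An_sub (by omega) le_rfl he)]
  · refine (E4_le_one hρ _ _).trans ?_
    have h2 : (1:ℝ) ≤ 32 * (R:ℝ) / N' := by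
      rw [le_div_iff₀ hNp, one_mul]
      have h3 : N' ≤ 32 * R := by omega
      exact_mod_cast h3
    have h3 : (1:ℝ) ≤ (32 * (R:ℝ) / N') ^ (2 * α) := Real.one_le_rpow h2 (by linarith [hX.pos])
    nlinarith

/-- one step -/
theorem qX_step (has : S_ASS) {X : ℕ → ℕ → Set Edg → Prop} {α : ℝ}
    (hX : ArmG X α) : ∃ (C1 C c : ℝ) (K1 : ℕ), 1 ≤ C1 ∧ 0 < C ∧ 0 < c ∧ 64 ≤ K1 ∧
    ∀ (k R : ℕ) (y M : ℝ), K1 ≤ k → 0 ≤ y → y < 1 → 1 ≤ M →
      (∀ k' N' : ℕ, k ≤ k' → k' ≤ N' → N' ≤ R → qX X y k' N' ≤ M * ((k':ℝ) / N') ^ (2 * α)) →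
      ∀ k' N' : ℕ, k ≤ k' → k' ≤ N' → N' ≤ R →
        qX X y k' N' ≤ (C1 + C * ((1 - y) * (k:ℝ) ^ (3 / 4 : ℝ)) ^ (-c) * M ^ 2) *
          ((k':ℝ) / N') ^ (2 * α) := by
  obtain ⟨CA, hCA, HA⟩ := hX.upper
  obtain ⟨C0, c, hC0, hc, HS⟩ := has
  have hα := hX.pos
  have hα2 : 0 < 2 * α := by linarith
  obtain ⟨B, hB⟩ : ∃ B : ℝ, B = (4096:ℝ) ^ (2 * α) := ⟨_, rfl⟩
  have hB1 : 1 ≤ B := by rw [hB]; exact Real.one_le_rpow (by norm_num) hα2.le
  obtain ⟨c', hc'⟩ : ∃ c' : ℝ, c' = 3 / 4 * c := ⟨_, rfl⟩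
  have hc'0 : 0 < c' := by rw [hc']; positivity
  have hr0 : 0 < (2:ℝ) ^ (-c') := Real.rpow_pos_of_pos (by norm_num) _
  have hr1 : (2:ℝ) ^ (-c') < 1 := Real.rpow_lt_one_of_one_lt_of_neg (by norm_num) (by linarith)
  have h1r : 0 < 1 - (2:ℝ) ^ (-c') := by linarith
  refine ⟨B + CA ^ 2 * 32 ^ (2 * α), 512 ^ (2 * α) * (C0 * (1 / (1 - (2:ℝ) ^ (-c')))), c, 64,
    ?_, by positivity, hc, le_rfl, ?_⟩
  · have : 0 ≤ CA ^ 2 * (32:ℝ) ^ (2 * α) := by positivity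
    linarith
  intro k Rm y M hk hy0 hy1 hM H k' N' hkk hkN hNR
  have hkp : (0:ℝ) < k := by exact_mod_cast (by omega : 0 < k)
  have hk'p : (0:ℝ) < k' := by exact_mod_cast (by omega : 0 < k')
  have hN'p : (0:ℝ) < N' := by exact_mod_cast (by omega : 0 < N')
  have hy1' : y ≤ 1 := hy1.le
  have h1y : 0 < 1 - y := by linarith
  have h1yc : 0 ≤ (1 - y) ^ (-c) := Real.rpow_nonneg h1y.le _
  have hpow : ∀ t : ℝ, 0 < t → ((1 - y) * t ^ (3 / 4 : ℝ)) ^ (-c) = (1 - y) ^ (-c) * t ^ (-c') := by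
    intro t ht
    rw [Real.mul_rpow h1y.le (Real.rpow_nonneg ht.le _), ← Real.rpow_mul ht.le]
    congr 2
    rw [hc']
    ring
  rw [hpow k hkp]
  have hM2 : 0 ≤ M ^ 2 := by positivity
  have hCk : 0 ≤ 512 ^ (2 * α) * (C0 * (1 / (1 - (2:ℝ) ^ (-c')))) *
      ((1 - y) ^ (-c) * (k:ℝ) ^ (-c')) * M ^ 2 := by
    positivity
  have ht0 : 0 ≤ ((k':ℝ) / N') ^ (2 * α) := by positivity
  by_cases hbig : N' < 4096 * k'
  · have h1 : qX X y k' N' ≤ 1 := E4_le_one (fun _ _ => ⟨hy0, hy1'⟩) _ _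
    have h2 : (1/4096:ℝ) ^ (2 * α) = 1 / B := by
      rw [hB, Real.div_rpow (by norm_num) (by norm_num), Real.one_rpow]
    have h3 : (1/4096:ℝ) ^ (2 * α) ≤ ((k':ℝ) / N') ^ (2 * α) := by
      refine Real.rpow_le_rpow (by norm_num) ?_ hα2.le
      rw [div_le_div_iff₀ (by norm_num) hN'p]
      have : (N':ℝ) ≤ 4096 * k' := by exact_mod_cast hbig.le
      linarith
    rw [h2] at h3
    have h4 : 0 ≤ CA ^ 2 * (32:ℝ) ^ (2 * α) := by positivity
    calc qX X y k' N' ≤ 1 := h1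
      _ = B * (1 / B) := by field_simp
      _ ≤ B * ((k':ℝ) / N') ^ (2 * α) := mul_le_mul_of_nonneg_left h3 (by linarith)
      _ ≤ _ := mul_le_mul_of_nonneg_right (by linarith) ht0
  push Not at hbig
  -- scales
  obtain ⟨q, hq⟩ : ∃ q : ℕ, q = N' / (16 * k') := ⟨_, rfl⟩
  have hq1 : 1 ≤ q := by
    rw [hq, Nat.one_le_div_iff (by omega)]
    omega
  obtain ⟨I, hI⟩ : ∃ I : ℕ, I = Nat.log 2 q := ⟨_, rfl⟩
  have hI1 : 2 ^ I ≤ q := by rw [hI]; exact Nat.pow_log_le_self 2 (by omega)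
  have hI2 : q < 2 ^ (I + 1) := by rw [hI]; exact Nat.lt_pow_succ_log_self (by norm_num) q
  obtain ⟨a0, ha0⟩ : ∃ a0 : ℕ, a0 = 4 * k' := ⟨_, rfl⟩
  obtain ⟨b0, hb0⟩ : ∃ b0 : ℕ, b0 = a0 * 2 ^ I := ⟨_, rfl⟩
  have hb4 : 4 * b0 ≤ N' := by
    calc 4 * b0 = 16 * k' * 2 ^ I := by rw [hb0, ha0]; ring
      _ ≤ 16 * k' * q := Nat.mul_le_mul_left _ hI1
      _ ≤ N' := by rw [hq]; exact Nat.mul_div_le _ _
  have hb8 : N' < 8 * b0 := by
    have h1 : N' < 16 * k' * (q + 1) := by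
      rw [hq]
      exact Nat.lt_mul_div_succ _ (by omega)
    calc N' < 16 * k' * (q + 1) := h1
      _ ≤ 16 * k' * 2 ^ (I + 1) := Nat.mul_le_mul_left _ hI2
      _ = 8 * b0 := by rw [hb0, ha0]; ring
  have hab : a0 ≤ b0 := by rw [hb0]; exact Nat.le_mul_of_pos_right _ (by positivity)
  have hb0p : (0:ℝ) < b0 := by exact_mod_cast (by omega : 0 < b0)
  have hZS : An a0 b0 ⊆ An k' N' := E4_An_sub (by omega) (by omega)
  -- decrease of the correlation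
  have s1 : qX X y k' N' ≤ P2 (E4r a0 b0 y) (An k' N') (fun F => X k' N' ↑F)
      (fun F => X k' N' ↑F) := by
    refine P2_mono_param (fun _ _ => hy0) (fun e _ => ?_) _
    unfold E4r
    split_ifs
    · exact le_rfl
    · exact hy1'
  have s2 := P2_deriv (ρ := fun _ => (1:ℝ)) (S := An k' N') (N := An a0 b0) hZS
    (fun _ _ => ⟨zero_le_one, le_rfl⟩) (fun F => X k' N' (↑F : Set Edg)) hy0 hy1'
  -- the first term
  have s3 : P2 (E4r a0 b0 0) (An k' N') (fun F => X k' N' ↑F) (fun F => X k' N' ↑F) ≤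
      CA ^ 2 * 32 ^ (2 * α) * ((k':ℝ) / N') ^ (2 * α) := by
    have hρ := E4r_ok (a0 := a0) (b0 := b0) le_rfl zero_le_one (An k' N')
    have hm : ∀ F : Finset Edg, F ⊆ An k' N' → X k' N' (↑F : Set Edg) →
        X a0 b0 (↑F : Set Edg) := fun F _ h => hX.outer hab (by omega) (hX.inner (by omega) (by omega) h)
    refine (D1_mono hρ hm hm).trans ?_
    rw [EX_local hX (z := 0) hZS (fun e he => by unfold E4r; rw [if_pos he])]
    unfold qX
    rw [E4_zero]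
    have h1 : Pr hp (An a0 b0) (fun F => X a0 b0 (↑F : Set Edg)) ≤ CA * ((a0:ℝ) / b0) ^ α :=
      HA a0 b0 (by omega) hab
    have h2 : 0 ≤ Pr hp (An a0 b0) (fun F => X a0 b0 (↑F : Set Edg)) := Pr_nonneg E4_ok _ _
    have h3 : (CA * ((a0:ℝ) / b0) ^ α) ^ 2 = CA ^ 2 * ((a0:ℝ) / b0) ^ (2 * α) := by
      rw [mul_pow, ← Real.rpow_natCast (((a0:ℝ) / b0) ^ α) 2,
        ← Real.rpow_mul (by positivity)]
      congr 2
      push_cast
      ring
    have h4 : ((a0:ℝ) / b0) ^ (2 * α) ≤ 32 ^ (2 * α) * ((k':ℝ) / N') ^ (2 * α) := by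
      rw [← Real.mul_rpow (by norm_num) (by positivity)]
      refine Real.rpow_le_rpow (by positivity) ?_ hα2.le
      rw [← mul_div_assoc, div_le_div_iff₀ hb0p hN'p]
      have h5 : (N':ℝ) ≤ 8 * b0 := by exact_mod_cast hb8.le
      have h6 : (a0:ℝ) = 4 * k' := by rw [ha0]; push_cast; ring
      rw [h6]
      nlinarith
    calc (Pr hp (An a0 b0) (fun F => X a0 b0 (↑F : Set Edg))) ^ 2
        ≤ (CA * ((a0:ℝ) / b0) ^ α) ^ 2 := by gcongr
      _ = CA ^ 2 * ((a0:ℝ) / b0) ^ (2 * α) := h3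
      _ ≤ CA ^ 2 * (32 ^ (2 * α) * ((k':ℝ) / N') ^ (2 * α)) := by gcongr
      _ = _ := by ring
  -- the second term
  set Y0 : ℝ := M ^ 2 * (512 ^ (2 * α) * ((k':ℝ) / N') ^ (2 * α)) with hY0
  have hY00 : 0 ≤ Y0 := by positivity
  have s4 : ∀ R : ℕ, a0 ≤ R → 2 * R ≤ b0 → ∀ e ∈ An R (2 * R),
      (∫ z in (0:ℝ)..y, P2 (E4r a0 b0 z) (An k' N')
      (fun F => ¬ (X k' N' (↑(insert e F) : Set Edg) ↔ X k' N' (↑(F.erase e) : Set Edg)))
      (fun F => ¬ (X k' N' (↑(insert e F) : Set Edg) ↔ X k' N' (↑(F.erase e) : Set Edg)))) ≤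
      Y0 * ∫ z in (0:ℝ)..y, P2 (E4r a0 b0 z) (An k' N')
        (fun F => A4e (R / 8) e ↑F ∨ A4d (R / 8) e F) (fun F => A4e (R / 8) e ↑F ∨ A4d (R / 8) e F) := by
    intro R hR hR2 e he
    have hRp : (0:ℝ) < R := by exact_mod_cast (by omega : 0 < R)
    rw [← intervalIntegral.integral_const_mul]
    have hcont : ∀ A : Finset Edg → Prop, Continuous fun z => P2 (E4r a0 b0 z) (An k' N') A A := by
      intro A
      refine P2_cont _ (fun e => ?_) _ _ _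
      unfold E4r
      split_ifs
      · exact continuous_id
      · exact continuous_const
    refine intervalIntegral.integral_mono_on hy0 ((hcont _).intervalIntegrable _ _)
      (((hcont _).const_mul _).intervalIntegrable _ _) fun z hz => ?_
    have hz1 : z ≤ 1 := hz.2.trans hy1'
    refine (EX_edge hX (by omega) ha0 hb4 hR hR2 he hz.1 hz1).trans ?_
    have i1 := EX_inner hX (k := k) (k' := k') (Rm := Rm) (by omega) hkk ha0 hb4 hNR hR hR2 hM hy1' H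
      hz.1 hz.2
    have i2 := EX_outer hX (k := k) (k' := k') (Rm := Rm) (by omega) hkk ha0 hb4 hb8 hNR hR hR2 hM
      hy1' H hz.1 hz.2
    have hρ := E4r_ok (a0 := a0) (b0 := b0) hz.1 hz1 (An k' N')
    have n1 := D1_nonneg hρ (fun F => A4e (R / 8) e (↑F : Set Edg) ∨ A4d (R / 8) e F)
      (fun F => A4e (R / 8) e (↑F : Set Edg) ∨ A4d (R / 8) e F)
    have n3 := D1_nonneg hρ (fun F => X (4 * R) N' (↑F : Set Edg))
      (fun F => X (4 * R) N' (↑F : Set Edg))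
    rw [mul_comm Y0]
    refine mul_le_mul_of_nonneg_left ?_ n1
    refine (mul_le_mul i1 i2 n3 (by positivity)).trans (le_of_eq ?_)
    rw [hY0]
    have h5 : (16 * (k':ℝ) / R) ^ (2 * α) * (32 * (R:ℝ) / N') ^ (2 * α) =
        512 ^ (2 * α) * ((k':ℝ) / N') ^ (2 * α) := by
      rw [← Real.mul_rpow (by positivity) (by positivity),
        ← Real.mul_rpow (by norm_num) (by positivity)]
      congr 1
      field_simp
      norm_num
    calc M * (16 * (k':ℝ) / R) ^ (2 * α) * (M * (32 * (R:ℝ) / N') ^ (2 * α))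
        = M ^ 2 * ((16 * (k':ℝ) / R) ^ (2 * α) * (32 * (R:ℝ) / N') ^ (2 * α)) := by ring
      _ = _ := by rw [h5]
  have s5 : ∑ e ∈ An a0 b0, (∫ z in (0:ℝ)..y, P2 (E4r a0 b0 z) (An k' N')
      (fun F => ¬ (X k' N' (↑(insert e F) : Set Edg) ↔ X k' N' (↑(F.erase e) : Set Edg)))
      (fun F => ¬ (X k' N' (↑(insert e F) : Set Edg) ↔ X k' N' (↑(F.erase e) : Set Edg)))) ≤
      Y0 * (C0 * ((1 - y) ^ (-c) * ((k:ℝ) ^ (-c') * (1 / (1 - (2:ℝ) ^ (-c')))))) := by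
    have e1 : An a0 b0 = An a0 (a0 * 2 ^ I) := by rw [hb0]
    rw [e1, E4_sum]
    have hterm : ∀ i ∈ Finset.range I, ∑ e ∈ An (a0 * 2 ^ i) (2 * (a0 * 2 ^ i)),
        (∫ z in (0:ℝ)..y, P2 (E4r a0 b0 z) (An k' N')
      (fun F => ¬ (X k' N' (↑(insert e F) : Set Edg) ↔ X k' N' (↑(F.erase e) : Set Edg)))
      (fun F => ¬ (X k' N' (↑(insert e F) : Set Edg) ↔ X k' N' (↑(F.erase e) : Set Edg)))) ≤
      Y0 * (C0 * ((1 - y) ^ (-c) * ((a0 * 2 ^ i : ℕ) : ℝ) ^ (-c'))) := by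
      intro i hi
      rw [Finset.mem_range] at hi
      obtain ⟨R, hR⟩ : ∃ R : ℕ, R = a0 * 2 ^ i := ⟨_, rfl⟩
      rw [← hR]
      have hR1 : a0 ≤ R := by rw [hR]; exact Nat.le_mul_of_pos_right _ (by positivity)
      have hR2 : 2 * R ≤ b0 := by
        calc 2 * R = a0 * 2 ^ (i + 1) := by rw [hR]; ring
          _ ≤ a0 * 2 ^ I := Nat.mul_le_mul_left _ (Nat.pow_le_pow_right (by norm_num) (by omega))
          _ = b0 := hb0.symm
      refine (Finset.sum_le_sum (s4 R hR1 hR2)).trans ?_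
      rw [← Finset.mul_sum]
      refine mul_le_mul_of_nonneg_left ?_ hY00
      have hRp : (0:ℝ) < R := by exact_mod_cast (by omega : 0 < R)
      rw [← hpow R hRp]
      refine HS a0 R b0 (An k' N') (by omega) hR1 hR2 ?_ y hy0 hy1
      intro e he
      rw [INDI_memAn] at he
      intro f hf
      rw [INDI_memAn]
      refine ⟨E4_boxE (by omega) (E4_ebx_sub (N := 4 * R) he.1 (by omega) hf), fun h => ?_⟩
      have hd2 : Disjoint (ebx e (R / 8 + 2)) (boxE (R / 2)) := E4_ebx_disj he.2 (by omega)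
      exact (Finset.disjoint_left.1 hd2) hf (E4_boxE (by omega) h)
    refine (Finset.sum_le_sum hterm).trans ?_
    rw [← Finset.mul_sum, ← Finset.mul_sum, ← Finset.mul_sum]
    refine mul_le_mul_of_nonneg_left (mul_le_mul_of_nonneg_left
      (mul_le_mul_of_nonneg_left ?_ h1yc) hC0.le) hY00
    exact E4_geom c' hc'0 (by omega) (by omega) I
  have s6 : qX X y k' N' ≤ CA ^ 2 * 32 ^ (2 * α) * ((k':ℝ) / N') ^ (2 * α) +
      Y0 * (C0 * ((1 - y) ^ (-c) * ((k:ℝ) ^ (-c') * (1 / (1 - (2:ℝ) ^ (-c')))))) :=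
    s1.trans (s2.trans (add_le_add s3 s5))
  refine s6.trans ?_
  rw [hY0]
  have h64 : 0 ≤ B * ((k':ℝ) / N') ^ (2 * α) := by positivity
  calc CA ^ 2 * 32 ^ (2 * α) * ((k':ℝ) / N') ^ (2 * α) +
      M ^ 2 * (512 ^ (2 * α) * ((k':ℝ) / N') ^ (2 * α)) *
        (C0 * ((1 - y) ^ (-c) * ((k:ℝ) ^ (-c') * (1 / (1 - (2:ℝ) ^ (-c'))))))
      ≤ B * ((k':ℝ) / N') ^ (2 * α) + (CA ^ 2 * 32 ^ (2 * α) * ((k':ℝ) / N') ^ (2 * α) +
      M ^ 2 * (512 ^ (2 * α) * ((k':ℝ) / N') ^ (2 * α)) *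
        (C0 * ((1 - y) ^ (-c) * ((k:ℝ) ^ (-c') * (1 / (1 - (2:ℝ) ^ (-c'))))))) := by linarith
    _ = _ := by ring

theorem qX_zero (X : ℕ → ℕ → Set Edg → Prop) (a N : ℕ) :
    qX X 0 a N = PQ (1 / 2) (An a N) (fun F => X a N ↑F) ^ 2 := by
  unfold qX
  rw [E4_zero]
  rfl

theorem qX_cont (X : ℕ → ℕ → Set Edg → Prop) (a N : ℕ) : Continuous fun y => qX X y a N := by
  unfold qX
  exact P2_cont (fun y _ => y) (fun _ => continuous_id) _ _ _

theorem qX_far (has : S_ASS) {X : ℕ → ℕ → Set Edg → Prop} {α : ℝ}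
    (hX : ArmG X α) :
    ∃ (C1 : ℝ) (K1 : ℕ), 1 ≤ C1 ∧ 1 ≤ K1 ∧ ∀ (k R : ℕ) (y : ℝ), K1 ≤ k → k ≤ R →
    0 ≤ y → y < 1 → (K1:ℝ) ≤ (1 - y) * (k:ℝ) ^ (3 / 4 : ℝ) →
      qX X y k R ≤ C1 * ((k:ℝ) / R) ^ (2 * α) := by
  have hα := hX.pos
  have hα2 : 0 < 2 * α := by linarith
  obtain ⟨C0, hC0, hup⟩ := hX.upper
  obtain ⟨C1, C, c, K1, hC1, hC, hc, hK1, hstep⟩ := qX_step has hX
  set D : ℝ := max C1 (C0 ^ 2) with hD
  have hD1 : C1 ≤ D := le_max_left _ _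
  have hD0 : C0 ^ 2 ≤ D := le_max_right _ _
  have hDpos : 0 < D := by linarith
  -- choice of K
  have hlim : Filter.Tendsto (fun k : ℕ => (4 * C * D) * (k:ℝ) ^ (-c)) Filter.atTop (nhds 0) := by
    have h1 := (tendsto_rpow_neg_atTop hc).comp (tendsto_natCast_atTop_atTop (R := ℝ))
    have h2 := h1.const_mul (4 * C * D)
    rw [mul_zero] at h2
    exact h2
  obtain ⟨K2, hK2⟩ := Filter.eventually_atTop.1 (hlim.eventually_lt_const (show (0:ℝ) < 1 by norm_num))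
  refine ⟨2 * D, max K1 (max K2 1), by linarith, by omega, ?_⟩
  intro k R y hk hkR hy0 hy1 hyk
  have hkK1 : K1 ≤ k := (le_max_left _ _).trans hk
  have hkpos : (0:ℝ) < k := by
    have : 0 < k := by omega
    exact_mod_cast this
  have hK2pos : (0:ℝ) < (max K1 (max K2 1) : ℕ) := by
    have : 0 < max K1 (max K2 1) := by omega
    exact_mod_cast this
  have hgain : ∀ x : ℝ, x ≤ y → C1 + C * ((1 - x) * (k:ℝ) ^ (3 / 4 : ℝ)) ^ (-c) * (2 * D) ^ 2 <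
      2 * D := by
    intro x hx
    have hk2 : 4 * C * D * ((max K1 (max K2 1) : ℕ) : ℝ) ^ (-c) < 1 := hK2 _ (by omega)
    have h1 : ((max K1 (max K2 1) : ℕ) : ℝ) ≤ (1 - x) * (k:ℝ) ^ (3 / 4 : ℝ) := by
      refine hyk.trans (mul_le_mul_of_nonneg_right (by linarith) (Real.rpow_nonneg hkpos.le _))
    have h2 : ((1 - x) * (k:ℝ) ^ (3 / 4 : ℝ)) ^ (-c) ≤ ((max K1 (max K2 1) : ℕ) : ℝ) ^ (-c) :=
      Real.rpow_le_rpow_of_nonpos hK2pos h1 (by linarith)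
    have h3 : 4 * C * D * ((1 - x) * (k:ℝ) ^ (3 / 4 : ℝ)) ^ (-c) < 1 := by
      refine lt_of_le_of_lt (mul_le_mul_of_nonneg_left h2 (by positivity)) hk2
    have : C * ((1 - x) * (k:ℝ) ^ (3 / 4 : ℝ)) ^ (-c) * (2 * D) ^ 2 =
        (4 * C * D * ((1 - x) * (k:ℝ) ^ (3 / 4 : ℝ)) ^ (-c)) * D := by ring
    rw [this]
    have := mul_lt_mul_of_pos_right h3 hDpos
    linarith
  set s : Set ℝ := {y | ∀ k' N' : ℕ, k ≤ k' → k' ≤ N' → N' ≤ R →
    qX X y k' N' ≤ (2 * D) * ((k':ℝ) / N') ^ (2 * α)} with hs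
  set Y : ℝ := y with hY
  have hclosed : IsClosed s := by
    simp only [hs, Set.ofPred_forall]
    refine isClosed_iInter fun k' => isClosed_iInter fun N' => isClosed_iInter fun _ =>
      isClosed_iInter fun _ => isClosed_iInter fun _ => ?_
    exact isClosed_le (qX_cont X k' N') continuous_const
  have h0 : (0:ℝ) ∈ s := by
    intro k' N' h1 h2 h3
    rw [qX_zero]
    have hk' : (0:ℝ) < k' := by
      have : 0 < k' := by omega
      exact_mod_cast this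
    have hN' : (0:ℝ) < N' := by
      have : 0 < N' := by omega
      exact_mod_cast this
    have h4 := hup k' N' (by omega) h2
    have h5 : 0 ≤ PQ (1 / 2) (An k' N') (fun F => X k' N' ↑F) :=
      Pr_nonneg (okq (by norm_num) (by norm_num)) _ _
    have h6 : (((k':ℝ) / N') ^ α) ^ 2 = ((k':ℝ) / N') ^ (2 * α) := by
      rw [← Real.rpow_natCast, ← Real.rpow_mul (by positivity)]
      congr 1
      push_cast
      ring
    calc PQ (1 / 2) (An k' N') (fun F => X k' N' ↑F) ^ 2 ≤ (C0 * ((k':ℝ) / N') ^ α) ^ 2 := by gcongr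
      _ = C0 ^ 2 * ((k':ℝ) / N') ^ (2 * α) := by rw [mul_pow, h6]
      _ ≤ (2 * D) * ((k':ℝ) / N') ^ (2 * α) := by
          gcongr
          linarith
  have hsub : Set.Icc 0 Y ⊆ s := by
    apply IsClosed.Icc_subset_of_forall_mem_nhdsWithin (hclosed.inter isClosed_Icc) h0
    rintro x ⟨hx, hx0, hxY⟩
    apply mem_nhdsWithin_of_mem_nhds
    have h1 := hstep k R x (2 * D) hkK1 hx0 (hxY.trans hy1) (by linarith) hx
    have hgx := hgain x hxY.le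
    have h2 : ∀ k' ∈ Finset.range (R + 1), ∀ᶠ z in nhds x, ∀ N' ∈ Finset.range (R + 1),
        (k ≤ k' → k' ≤ N' → N' ≤ R → qX X z k' N' ≤ (2 * D) * ((k':ℝ) / N') ^ (2 * α)) := by
      intro k' _
      rw [Filter.eventually_all_finset]
      intro N' _
      by_cases hkk : k ≤ k' ∧ k' ≤ N' ∧ N' ≤ R
      · obtain ⟨a1, a2, a3⟩ := hkk
        have hk' : (0:ℝ) < k' := by
          have : 0 < k' := by omega
          exact_mod_cast this
        have hN' : (0:ℝ) < N' := by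
          have : 0 < N' := by omega
          exact_mod_cast this
        have h3 : qX X x k' N' < (2 * D) * ((k':ℝ) / N') ^ (2 * α) := by
          refine (h1 k' N' a1 a2 a3).trans_lt ?_
          gcongr
        have h4 : ∀ᶠ z in nhds x, qX X z k' N' < (2 * D) * ((k':ℝ) / N') ^ (2 * α) :=
          (qX_cont X k' N').continuousAt.eventually (gt_mem_nhds h3)
        filter_upwards [h4] with z hz _ _ _
        exact hz.le
      · filter_upwards with z a1 a2 a3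
        exact absurd ⟨a1, a2, a3⟩ hkk
    rw [← Filter.eventually_all_finset] at h2
    filter_upwards [h2] with z hz
    intro k' N' a1 a2 a3
    exact hz k' (Finset.mem_range.2 (by omega)) N' (Finset.mem_range.2 (by omega)) a1 a2 a3
  exact hsub ⟨hy0, le_rfl⟩ k R le_rfl hkR le_rfl

/-- submultiplicativity -/
theorem qX_submul {X : ℕ → ℕ → Set Edg → Prop} {α : ℝ} (hX : ArmG X α) {x : ℝ} (h0 : 0 ≤ x) (h1 : x ≤ 1) {a k R : ℕ} (hak : a ≤ k) (hkR : k ≤ R) :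
    qX X x a R ≤ qX X x a k * qX X x k R := by
  have hS : An a k ⊆ An a R := by
    intro e he
    unfold An at he ⊢
    rw [Finset.mem_sdiff] at he ⊢
    exact ⟨boxE_mono hkR he.1, he.2⟩
  have hT : An k R ⊆ An a R := by
    intro e he
    unfold An at he ⊢
    rw [Finset.mem_sdiff] at he ⊢
    exact ⟨he.1, fun h => he.2 (boxE_mono hak h)⟩
  have hST : Disjoint (An a k) (An k R) := by
    rw [Finset.disjoint_left]
    intro e he he'
    unfold An at he he'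
    rw [Finset.mem_sdiff] at he he'
    exact he'.2 he.1
  have hρ : ∀ e ∈ An a R, 0 ≤ (fun _ : Edg => x) e ∧ (fun _ : Edg => x) e ≤ 1 :=
    fun _ _ => ⟨h0, h1⟩
  calc qX X x a R = P2 (fun _ => x) (An a R) (fun F => X a R ↑F) (fun F => X a R ↑F) := rfl
    _ ≤ P2 (fun _ => x) (An a R) (fun F => X a k ↑F ∧ X k R ↑F)
          (fun F => X a k ↑F ∧ X k R ↑F) :=
        D0.P2_mono hρ (fun F _ h => ⟨hX.outer hak hkR h, hX.inner hak hkR h⟩)
          (fun F _ h => ⟨hX.outer hak hkR h, hX.inner hak hkR h⟩)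
    _ = P2 (fun _ => x) (An a R) (fun F => X a k ↑F) (fun F => X a k ↑F) *
          P2 (fun _ => x) (An a R) (fun F => X k R ↑F) (fun F => X k R ↑F) :=
        P2_indep hS hT hST (fun F hF => EX_loc hX (Finset.Subset.refl _) F) (fun F hF => EX_loc hX (Finset.Subset.refl _) F)
          (fun F hF => EX_loc hX (Finset.Subset.refl _) F) (fun F hF => EX_loc hX (Finset.Subset.refl _) F)
    _ = qX X x a k * qX X x k R := by
        unfold qX
        rw [P2_local hS (fun F hF => EX_loc hX (Finset.Subset.refl _) F) (fun F hF => EX_loc hX (Finset.Subset.refl _) F),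
          P2_local hT (fun F hF => EX_loc hX (Finset.Subset.refl _) F) (fun F hF => EX_loc hX (Finset.Subset.refl _) F)]

theorem qX_nonneg (X : ℕ → ℕ → Set Edg → Prop) {x : ℝ} (h0 : 0 ≤ x) (h1 : x ≤ 1) (a k : ℕ) : 0 ≤ qX X x a k :=
  D0.P2_nonneg (fun _ _ => ⟨h0, h1⟩) _ _

theorem qX_le (X : ℕ → ℕ → Set Edg → Prop) {x : ℝ} (h0 : 0 ≤ x) (h1 : x ≤ 1) (a k : ℕ) : qX X x a k ≤ PQ (1 / 2) (An a k) (fun F => X a k ↑F) :=
  P2_le_Pr (fun _ _ => ⟨h0, h1⟩) _ _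

/-- **SN-QX.** -/
theorem qXS (h : S_ASS) : S_QXS := by
  intro X α hX
  have hα := hX.pos
  have hα2 : 0 < 2 * α := by linarith
  obtain ⟨C1, K1, hC1, hK1, hfar⟩ := qX_far h hX
  -- choice of the factor
  obtain ⟨K, hK⟩ : ∃ K : ℕ, K1 ≤ K ∧ 1 ≤ K ∧ (K1:ℝ) ≤ (K:ℝ) ^ (3 / 4 : ℝ) := by
    refine ⟨K1 ^ 2, by nlinarith, by nlinarith, ?_⟩
    have hK1' : (1:ℝ) ≤ K1 := by exact_mod_cast hK1
    push_cast
    rw [← Real.rpow_natCast, ← Real.rpow_mul (by linarith)]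
    calc (K1:ℝ) = (K1:ℝ) ^ (1:ℝ) := (Real.rpow_one _).symm
      _ ≤ _ := Real.rpow_le_rpow_of_exponent_le hK1' (by norm_num)
  obtain ⟨hK1K, hKpos, hK34⟩ := hK
  have hK0 : (0:ℝ) < K := by exact_mod_cast hKpos
  have hCK : 0 < (K:ℝ) ^ (2 * α) := Real.rpow_pos_of_pos hK0 _
  refine ⟨C1 * (K:ℝ) ^ (2 * α), by positivity, ?_⟩
  intro a R x ha haR hx0 hx1 hax
  have ha0 : (0:ℝ) < a := by exact_mod_cast ha
  have hR0 : (0:ℝ) < R := by exact_mod_cast ha.trans haR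
  have hpow : ((K:ℝ) * a / R) ^ (2 * α) = (K:ℝ) ^ (2 * α) * ((a:ℝ) / R) ^ (2 * α) := by
    rw [mul_div_assoc, Real.mul_rpow hK0.le (by positivity)]
  have hle1 : ∀ a' R' : ℕ, qX X x a' R' ≤ 1 := fun a' R' =>
    E4_le_one (fun _ _ => ⟨hx0, hx1.le⟩) _ _
  rcases le_or_gt (K * a) R with hkR | hkR
  · have hak : a ≤ K * a := Nat.le_mul_of_pos_left _ hKpos
    have h1 := qX_submul hX hx0 hx1.le hak hkR
    have h2 := hfar (K * a) R x (hK1K.trans (Nat.le_mul_of_pos_right _ ha)) hkR hx0 hx1 (by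
      push_cast
      rw [Real.mul_rpow hK0.le ha0.le]
      have h3 : 0 ≤ (K:ℝ) ^ (3 / 4 : ℝ) := Real.rpow_nonneg hK0.le _
      have h4 : (K:ℝ) ^ (3 / 4 : ℝ) * 1 ≤ (K:ℝ) ^ (3 / 4 : ℝ) * ((1 - x) * (a:ℝ) ^ (3 / 4 : ℝ)) :=
        mul_le_mul_of_nonneg_left hax h3
      linarith)
    have h5 : qX X x (K * a) R ≥ 0 := qX_nonneg X hx0 hx1.le _ _
    calc qX X x a R ≤ qX X x a (K * a) * qX X x (K * a) R := h1
      _ ≤ 1 * qX X x (K * a) R := mul_le_mul_of_nonneg_right (hle1 _ _) h5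
      _ ≤ C1 * (((K * a : ℕ) : ℝ) / R) ^ (2 * α) := by rw [one_mul]; exact h2
      _ = C1 * (K:ℝ) ^ (2 * α) * ((a:ℝ) / R) ^ (2 * α) := by
          push_cast
          rw [hpow]
          ring
  · have h1 : (1:ℝ) ≤ (K:ℝ) * a / R := by
      rw [le_div_iff₀ hR0, one_mul]
      exact_mod_cast hkR.le
    have h2 : (1:ℝ) ≤ ((K:ℝ) * a / R) ^ (2 * α) := Real.one_le_rpow h1 hα2.le
    rw [hpow] at h2
    have h3 : 0 ≤ (K:ℝ) ^ (2 * α) * ((a:ℝ) / R) ^ (2 * α) := by positivity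
    calc qX X x a R ≤ 1 := hle1 _ _
      _ ≤ (K:ℝ) ^ (2 * α) * ((a:ℝ) / R) ^ (2 * α) := h2
      _ ≤ C1 * ((K:ℝ) ^ (2 * α) * ((a:ℝ) / R) ^ (2 * α)) := le_mul_of_one_le_left h3 hC1
      _ = _ := by ring

end Pool.Agent.Y67.SN
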